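import Pool.Agent.Helper31.TW.St3

/-!
# Project TW, module SLS: slices of semilinear sets
-/

set_option autoImplicit false

namespace Pool.Agent.Helper60.TW

open Pool.Agent.Helper31.TW

theorem hSLS : StSLS := by
  intro m n e a S _ hS
  have hB : IsSemilinearSet (⋂ i ∈ ((Set.range e)ᶜ : Set (Fin n)),
      ((Pi.evalAddMonoidHom (fun _ : Fin n => ℕ) i) ⁻¹' {a i} : Set (Fin n → ℕ))) :=
    IsSemilinearSet.biInter (Set.toFinite _) fun i _ =>
      (IsSemilinearSet.singleton (a i)).preimage (Pi.evalAddMonoidHom (fun _ : Fin n => ℕ) i)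
  let F : (Fin n → ℕ) →+ (Fin m → ℕ) :=
    { toFun := fun x => x ∘ e
      map_zero' := rfl
      map_add' := fun _ _ => rfl }
  have h := (hS.inter hB).image F
  have heq : {t : Fin m → ℕ | ∃ x ∈ S, Emb e a x t} = F '' (S ∩ ⋂ i ∈ ((Set.range e)ᶜ : Set (Fin n)),
      ((Pi.evalAddMonoidHom (fun _ : Fin n => ℕ) i) ⁻¹' {a i} : Set (Fin n → ℕ))) := by
    ext t
    constructor
    · rintro ⟨x, hx, h1, h2⟩
      refine ⟨x, ⟨hx, Set.mem_iInter₂.2 fun i hi => ?_⟩, ?_⟩
      · exact h2 i hi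
      · funext j
        exact h1 j
    · rintro ⟨x, ⟨hx, h2⟩, rfl⟩
      refine ⟨x, hx, fun j => rfl, fun i hi => ?_⟩
      exact Set.mem_iInter₂.1 h2 i hi
  rw [heq]
  exact h

end Pool.Agent.Helper60.TW
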